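import Pool.Agent.Helper665_GA.Involution

/-!
# Ring isomorphism implies *-isomorphism over every field with involution, when no cycle has an exit

Let `K` be any field with involution, `E` a countable graph in which no cycle has an exit and `F`
an arbitrary graph. If `L_K(E)` and `L_K(F)` are isomorphic as rings, then they are isomorphic as
`*`-algebras.
-/

namespace Pool.Agent.Results.MP_329fe2_al.NoExitCountable

open Pool.Agent.Helper665_GA

/-- If no cycle of the countable graph `E` has an exit and the rings `L_K(E)` and `L_K(F)` are
isomorphic, then there is an isomorphism of `K`-algebras `L_K(E) → L_K(F)` which commutes with the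
involutions. -/
theorem result (K : Type) [Field K] [StarRing K] (E F : Graph) [Countable E.V] [Countable E.E]
    (hE : E.NoExit) (h : Nonempty (Leavitt K E ≃+* Leavitt K F)) :
    ∃ f : Leavitt K E →ₙₐ[K] Leavitt K F, Function.Bijective f ∧
      ∀ x, f (leavittStar K E x) = leavittStar K F (f x) :=
  exists_leavitt_star_iso hE h

end Pool.Agent.Results.MP_329fe2_al.NoExitCountable
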